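import Mathlib
import Pool.Agent.Helper35.AG.Basic

/-!
ADD: asymptotic additivity of entropy under convolution with a measure of zero entropy. Definitions.
-/

set_option autoImplicit false

open Finset

namespace Helper35.ADD

/-- `(u + v) h (v / (u + v))`, `h` the binary entropy -/
noncomputable def H2 (u v : ℝ) : ℝ :=
  Real.negMulLog u + Real.negMulLog v - Real.negMulLog (u + v)

/-- the law modulo `2 ^ j` of the weights `p` on `{0, …, 2 ^ K - 1}` -/
noncomputable def md (K : ℕ) (p : ℕ → ℝ) (j r : ℕ) : ℝ :=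
  ∑ i ∈ (range (2 ^ K)).filter (fun i => i % 2 ^ j = r), p i

/-- its entropy -/
noncomputable def sh (K : ℕ) (p : ℕ → ℝ) (j : ℕ) : ℝ :=
  ∑ r ∈ range (2 ^ j), Real.negMulLog (md K p j r)

/-- the law of the sum modulo `2 ^ K` -/
noncomputable def cv (K : ℕ) (p q : ℕ → ℝ) (z : ℕ) : ℝ :=
  ∑ s ∈ (range (2 ^ K) ×ˢ range (2 ^ K)).filter (fun s => (s.1 + s.2) % 2 ^ K = z), p s.1 * q s.2

end Helper35.ADD
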