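import Pool.Agent.Helper36.ADD.Carry
import Pool.Agent.Helper28.ADD.MdInv
import Pool.Agent.Helper28.ADD.Anti

/-!
ADD: asymptotic additivity of entropy
-/

set_option autoImplicit false

open Finset MeasureTheory
open Helper35.AG (Tor idx ent conv sum_cells)

namespace Helper35.ADD

theorem md_self (K : ℕ) (p : ℕ → ℝ) {r : ℕ} (hr : r < 2 ^ K) : md K p K r = p r := by
  unfold md
  have : (range (2 ^ K)).filter (fun i => i % 2 ^ K = r) = {r} := by
    ext i
    rw [Finset.mem_filter, Finset.mem_range, Finset.mem_singleton]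
    constructor
    · rintro ⟨h1, h2⟩
      rwa [Nat.mod_eq_of_lt h1] at h2
    · rintro rfl
      exact ⟨hr, Nat.mod_eq_of_lt hr⟩
  rw [this, Finset.sum_singleton]

theorem sh_self (K : ℕ) (p : ℕ → ℝ) : sh K p K = ∑ r ∈ range (2 ^ K), Real.negMulLog (p r) := by
  unfold sh
  exact Finset.sum_congr rfl fun r hr => by rw [md_self K p (Finset.mem_range.1 hr)]

theorem sh_zero (K : ℕ) {p : ℕ → ℝ} (hp1 : ∑ i ∈ range (2 ^ K), p i = 1) : sh K p 0 = 0 := by
  unfold sh md
  rw [pow_zero, Finset.sum_range_one]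
  have : (range (2 ^ K)).filter (fun i => i % 1 = 0) = range (2 ^ K) := by
    rw [Finset.filter_true_of_mem]
    intro i _
    exact Nat.mod_one i
  rw [this, hp1, Real.negMulLog_one]

theorem cv_nonneg (K : ℕ) {p q : ℕ → ℝ} (hp : ∀ i, 0 ≤ p i) (hq : ∀ i, 0 ≤ q i) (z : ℕ) :
    0 ≤ cv K p q z := Finset.sum_nonneg fun s _ => mul_nonneg (hp _) (hq _)

theorem cv_sum (K : ℕ) {p q : ℕ → ℝ} (hp1 : ∑ i ∈ range (2 ^ K), p i = 1)
    (hq1 : ∑ i ∈ range (2 ^ K), q i = 1) : ∑ z ∈ range (2 ^ K), cv K p q z = 1 := by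
  unfold cv
  rw [← Finset.sum_biUnion]
  · have : (range (2 ^ K)).biUnion (fun z => (range (2 ^ K) ×ˢ range (2 ^ K)).filter
        (fun s => (s.1 + s.2) % 2 ^ K = z)) = range (2 ^ K) ×ˢ range (2 ^ K) := by
      ext s
      rw [Finset.mem_biUnion]
      constructor
      · rintro ⟨_, _, hz⟩
        exact (Finset.mem_filter.1 hz).1
      · intro hs
        refine ⟨(s.1 + s.2) % 2 ^ K, Finset.mem_range.2 (Nat.mod_lt _ (by positivity)), ?_⟩
        exact Finset.mem_filter.2 ⟨hs, rfl⟩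
    rw [this, Finset.sum_product]
    simp only [← Finset.mul_sum]
    rw [hq1]
    simp only [mul_one]
    exact hp1
  · intro a _ b _ hab
    rw [Function.onFun, Finset.disjoint_left]
    intro s hs hs'
    exact hab ((Finset.mem_filter.1 hs).2.symm.trans (Finset.mem_filter.1 hs').2)

/-- telescoping -/
theorem tele (f : ℕ → ℝ) (J K : ℕ) (h : J ≤ K) :
    ∑ j ∈ Ico J K, (f (j + 1) - f j) = f K - f J := Finset.sum_Ico_sub f h

theorem additive (ε : ℝ) (hε : 0 < ε) : ∃ δ : ℝ, 0 < δ ∧ ∀ (μ : Measure Tor)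
    [IsProbabilityMeasure μ], MeasurePreserving (fun x : Tor => (2 : ℕ) • x) μ μ → ∀ J : ℕ, 1 ≤ J →
    ent μ J ≤ δ * J → ∀ (ν : Measure Tor) [IsProbabilityMeasure ν] (K : ℕ),
      (1 - ε) * (ent μ K + ent ν K) - 3 * J ≤ ent (conv μ ν) K := by
  obtain ⟨C, hC0, hC⟩ := Helper36.ADDS.pointwise (ε / 2) (by positivity)
  refine ⟨ε / (2 * C), by positivity, ?_⟩
  intro μ _ h2 J hJ hJe ν _ K
  obtain ⟨p, hp⟩ : ∃ p : ℕ → ℝ, p = fun i => μ.real {x | idx K x = i} := ⟨_, rfl⟩
  obtain ⟨q, hq⟩ : ∃ q : ℕ → ℝ, q = fun i => ν.real {x | idx K x = i} := ⟨_, rfl⟩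
  have hp0 : ∀ i, 0 ≤ p i := fun i => by rw [hp]; exact measureReal_nonneg
  have hq0 : ∀ i, 0 ≤ q i := fun i => by rw [hq]; exact measureReal_nonneg
  have hp1 : ∑ i ∈ range (2 ^ K), p i = 1 := by rw [hp]; exact sum_cells μ K
  have hq1 : ∑ i ∈ range (2 ^ K), q i = 1 := by rw [hq]; exact sum_cells ν K
  have hz0 := cv_nonneg K hp0 hq0
  have hz1 := cv_sum K hp1 hq1
  have hcar : sh K (cv K p q) K ≤ ent (conv μ ν) K + Real.log 2 := by
    rw [hp, hq]
    exact carry μ ν K
  have hl2 : Real.log 2 ≤ 0.6931471808 := Real.log_two_lt_d9.le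
  have hl0 : 0 < Real.log 2 := Real.log_pos (by norm_num)
  have hJr : (1 : ℝ) ≤ J := by exact_mod_cast hJ
  -- entropies of the law of `μ`
  have hmu : ∀ j, j ≤ K → sh K p j = ent μ j := by
    intro j hj
    unfold sh ent
    refine Finset.sum_congr rfl fun r hr => ?_
    rw [hp, md_inv h2 hj (Finset.mem_range.1 hr)]
  have hentp : ent μ K = sh K p K := (hmu K le_rfl).symm
  have hentq : ent ν K = sh K q K := by
    rw [sh_self]
    unfold ent
    rw [hq]
  have hcap : ∀ w : ℕ → ℝ, (∀ i, 0 ≤ w i) → ∑ i ∈ range (2 ^ K), w i = 1 → ∀ j, j ≤ K →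
      sh K w j ≤ j * Real.log 2 := by
    intro w hw0 hw1 j hj
    induction j with
    | zero => rw [sh_zero K hw1]; simp
    | succ j ih =>
      have h1 := (inc_bounds (show j < K by omega) hw0 hw1).2
      have h3 := ih (by omega)
      push_cast
      linarith
  have hnn : ∀ w : ℕ → ℝ, (∀ i, 0 ≤ w i) → ∑ i ∈ range (2 ^ K), w i = 1 → ∀ j, j ≤ K →
      0 ≤ sh K w j := by
    intro w hw0 hw1 j hj
    induction j with
    | zero => rw [sh_zero K hw1]
    | succ j ih =>
      have h1 := (inc_bounds (show j < K by omega) hw0 hw1).1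
      have h3 := ih (by omega)
      linarith
  have hmono : ∀ w : ℕ → ℝ, (∀ i, 0 ≤ w i) → ∑ i ∈ range (2 ^ K), w i = 1 → ∀ j, j < K →
      0 ≤ sh K w (j + 1) - sh K w j := fun w hw0 hw1 j hj => (inc_bounds hj hw0 hw1).1
  rcases lt_or_ge K J with hKJ | hKJ
  · -- small scales
    have h1 := hcap p hp0 hp1 K le_rfl
    have h3 := hcap q hq0 hq1 K le_rfl
    have h4 := hnn _ hz0 hz1 K le_rfl
    have hp' := hnn p hp0 hp1 K le_rfl
    have hq' := hnn q hq0 hq1 K le_rfl
    have hKr : (K : ℝ) ≤ J := by exact_mod_cast hKJ.le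
    have h5 : (K : ℝ) * Real.log 2 ≤ J * Real.log 2 := by gcongr
    have h6 : (J : ℝ) * Real.log 2 ≤ J * 0.6931471808 := by gcongr
    rw [hentp, hentq]
    have h7 : (1 - ε) * (sh K p K + sh K q K) ≤ sh K p K + sh K q K := by nlinarith
    nlinarith
  · -- small increments of `μ`
    have hsmall : ∀ j, J ≤ j → j < K → sh K p (j + 1) - sh K p j ≤ ε / (2 * C) := by
      intro j hj hjK
      rw [hmu (j + 1) (by omega), hmu j (by omega)]
      have h1 : ∀ i ∈ range J, ent μ (j + 1) - ent μ j ≤ ent μ (i + 1) - ent μ i := by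
        intro i hi
        rw [Finset.mem_range] at hi
        exact ent_anti h2 (by omega)
      have h3 : (J : ℝ) * (ent μ (j + 1) - ent μ j) ≤ ent μ J := by
        have h4 : ∑ i ∈ range J, (ent μ (j + 1) - ent μ j) ≤
            ∑ i ∈ range J, (ent μ (i + 1) - ent μ i) := Finset.sum_le_sum h1
        rw [Finset.sum_const, Finset.card_range, nsmul_eq_mul, Finset.sum_range_sub] at h4
        have h5 : ent μ 0 = 0 := by
          rw [← hmu 0 (by omega)]
          exact sh_zero K hp1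
        linarith
      have h6 : (J : ℝ) * (ent μ (j + 1) - ent μ j) ≤ J * (ε / (2 * C)) := by linarith
      exact le_of_mul_le_mul_left h6 (by linarith)
    have hstep : ∀ j, J ≤ j → j < K →
        (1 - ε) * ((sh K p (j + 1) - sh K p j) + (sh K q (j + 1) - sh K q j)) ≤
          sh K (cv K p q) (j + 1) - sh K (cv K p q) j := by
      intro j hj hjK
      have h1 := step hjK hp0 hq0 hp1 hq1 hC
      have ha := hmono p hp0 hp1 j hjK
      have hb := hmono q hq0 hq1 j hjK
      have h3 := hsmall j hj hjK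
      have h4 : C * ((sh K p (j + 1) - sh K p j) * (sh K q (j + 1) - sh K q j)) ≤
          ε / 2 * (sh K q (j + 1) - sh K q j) := by
        calc C * ((sh K p (j + 1) - sh K p j) * (sh K q (j + 1) - sh K q j))
            ≤ C * (ε / (2 * C) * (sh K q (j + 1) - sh K q j)) := by gcongr
          _ = ε / 2 * (sh K q (j + 1) - sh K q j) := by
            field_simp
      nlinarith
    have hsum : (1 - ε) * ((sh K p K - sh K p J) + (sh K q K - sh K q J)) ≤
        sh K (cv K p q) K - sh K (cv K p q) J := by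
      rw [← tele (fun j => sh K p j) J K hKJ, ← tele (fun j => sh K q j) J K hKJ,
        ← tele (fun j => sh K (cv K p q) j) J K hKJ, ← Finset.sum_add_distrib, Finset.mul_sum]
      refine Finset.sum_le_sum fun j hj => ?_
      rw [Finset.mem_Ico] at hj
      exact hstep j hj.1 hj.2
    have h1 := hcap p hp0 hp1 J hKJ
    have h3 := hcap q hq0 hq1 J hKJ
    have h4 := hnn _ hz0 hz1 J hKJ
    have hp' := hnn p hp0 hp1 J hKJ
    have hq' := hnn q hq0 hq1 J hKJ
    have h6 : (J : ℝ) * Real.log 2 ≤ J * 0.6931471808 := by gcongr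
    rw [hentp, hentq]
    have h7 : (1 - ε) * (sh K p J + sh K q J) ≤ sh K p J + sh K q J := by nlinarith
    nlinarith

end Helper35.ADD
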