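import Mathlib
import Pool.Agent.Helper66.ER.Parts

/-!
# Singular measures are seen by trigonometric polynomials without constant term
-/

set_option autoImplicit false

open MeasureTheory Filter Topology Finset
open Helper35.AG (Tor)

namespace Helper35.DU

/-- trigonometric polynomials are dense in the continuous functions -/
theorem exists_poly (F : C(Tor, ℂ)) (δ : ℝ) (hδ : 0 < δ) :
    ∃ D : ℕ, 1 ≤ D ∧ ∃ c : ℤ → ℂ, ∀ x, ‖F x - Helper66.ER.poly D c x‖ < δ := by
  have h1 : F ∈ (Submodule.span ℂ (Set.range (@fourier (1 : ℝ)))).topologicalClosure := by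
    rw [span_fourier_closure_eq_top]
    trivial
  rw [← SetLike.mem_coe, Submodule.topologicalClosure_coe, Metric.mem_closure_iff] at h1
  obtain ⟨g, hg, hd⟩ := h1 δ hδ
  rw [SetLike.mem_coe, Finsupp.mem_span_range_iff_exists_finsupp] at hg
  obtain ⟨c, hc⟩ := hg
  set D : ℕ := (∑ m ∈ c.support, m.natAbs) + 1 with hD
  refine ⟨D, by omega, c, fun x => ?_⟩
  have h2 : Helper66.ER.poly D c x = g x := by
    rw [← hc]
    unfold Helper66.ER.poly Finsupp.sum
    rw [ContinuousMap.coe_sum, Finset.sum_apply]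
    symm
    refine Finset.sum_subset ?_ ?_
    · intro m hm
      have : m.natAbs ≤ ∑ m ∈ c.support, m.natAbs :=
        Finset.single_le_sum (f := fun m : ℤ => m.natAbs) (fun _ _ => Nat.zero_le _) hm
      rw [Finset.mem_Icc]
      omega
    · intro m _ hm
      rw [Finsupp.notMem_support_iff.1 hm]
      simp
  rw [h2]
  have h3 := ContinuousMap.norm_coe_le_norm (F - g) x
  rw [ContinuousMap.sub_apply] at h3
  rw [dist_eq_norm] at hd
  exact h3.trans_lt hd

/-- a probability measure singular to Lebesgue measure has almost full norm on the trigonometric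
polynomials of norm at most 1 without constant term -/
theorem dual {μ : Measure Tor} [IsProbabilityMeasure μ] (h : μ.MutuallySingular volume) (d : ℝ)
    (hd : 0 < d) : ∃ D : ℕ, 1 ≤ D ∧ ∃ c : ℤ → ℂ, c 0 = 0 ∧ (∀ x, ‖Helper66.ER.poly D c x‖ ≤ 1) ∧
      1 - d ≤ ‖∫ x, Helper66.ER.poly D c x ∂μ‖ := by
  obtain ⟨δ, hδ, hδd, hδ1⟩ : ∃ δ : ℝ, 0 < δ ∧ 7 * δ ≤ d ∧ δ ≤ 1 :=
    ⟨min (d / 7) 1, by positivity, by linarith [min_le_left (d / 7) 1], min_le_right _ _⟩
  -- a compact set carrying most of `μ` and null for Lebesgue measure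
  obtain ⟨A, hAm, hA0, hA1⟩ := h
  have hμA : μ Aᶜ = 1 := by
    rw [prob_compl_eq_one_iff hAm]
    exact hA0
  obtain ⟨K, hKA, hK, hKμ⟩ : ∃ K ⊆ Aᶜ, IsCompact K ∧ 1 - ENNReal.ofReal δ < μ K := by
    refine hAm.compl.exists_lt_isCompact ?_
    rw [hμA]
    exact ENNReal.sub_lt_self ENNReal.one_ne_top one_ne_zero (by simpa using hδ)
  have hKv : (volume : Measure Tor) K = 0 := measure_mono_null hKA hA1
  obtain ⟨U, hKU, hU, hUv⟩ : ∃ U ⊇ K, IsOpen U ∧ (volume : Measure Tor) U < ENNReal.ofReal δ := by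
    refine Set.exists_isOpen_lt_of_lt K _ ?_
    rw [hKv]
    simpa using hδ
  obtain ⟨f, hf0, hf1, hf⟩ := exists_continuous_zero_one_of_isClosed hU.isClosed_compl hK.isClosed
    (Set.disjoint_left.2 fun x hx hx' => hx (hKU hx'))
  obtain ⟨D, hD, c, hc⟩ := exists_poly ⟨fun x => (f x : ℂ), by fun_prop⟩ δ hδ
  have hc' : ∀ x, ‖(f x : ℂ) - Helper66.ER.poly D c x‖ < δ := hc
  have hpc := Helper66.ER.continuous_poly D c
  have hint : ∀ (ρ : Measure Tor) [IsProbabilityMeasure ρ], Integrable (Helper66.ER.poly D c) ρ :=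
    fun ρ _ => Helper17.TranslM.integrable_cont ρ hpc
  have hintf : ∀ (ρ : Measure Tor) [IsProbabilityMeasure ρ], Integrable (fun x => (f x : ℝ)) ρ :=
    fun ρ _ => Helper17.TranslM.integrable_cont ρ f.continuous
  have hdiff : ∀ (ρ : Measure Tor) [IsProbabilityMeasure ρ],
      ‖((∫ x, f x ∂ρ : ℝ) : ℂ) - ∫ x, Helper66.ER.poly D c x ∂ρ‖ ≤ δ := by
    intro ρ _
    have hfc : Integrable (fun x => (f x : ℂ)) ρ :=
      Helper17.TranslM.integrable_cont ρ (by fun_prop)
    rw [← integral_complex_ofReal, ← integral_sub hfc (hint ρ)]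
    refine (norm_integral_le_of_norm_le_const (C := δ)
      (Eventually.of_forall fun x => (hc' x).le)).trans ?_
    simp
  -- the mean for Lebesgue measure
  have hf0' : 0 ≤ ∫ x : Tor, f x := integral_nonneg fun x => (hf x).1
  have hfv : ∫ x : Tor, f x ≤ δ := by
    have h1 : ∫ x : Tor, f x ≤ ∫ x : Tor, U.indicator (fun _ => (1 : ℝ)) x := by
      refine integral_mono (hintf volume) ((integrable_const _).indicator hU.measurableSet) ?_
      intro x
      by_cases hx : x ∈ U
      · rw [Set.indicator_of_mem hx]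
        exact (hf x).2
      · rw [Set.indicator_of_notMem hx]
        exact (hf0 hx).le
    rw [integral_indicator_const _ hU.measurableSet, smul_eq_mul, mul_one] at h1
    refine h1.trans ?_
    rw [measureReal_def]
    exact ENNReal.toReal_le_of_le_ofReal hδ.le hUv.le
  have hfμ : 1 - δ ≤ ∫ x, f x ∂μ := by
    have h1 : ∫ x, K.indicator (fun _ => (1 : ℝ)) x ∂μ ≤ ∫ x, f x ∂μ := by
      refine integral_mono ((integrable_const _).indicator hK.measurableSet) (hintf μ) ?_
      intro x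
      by_cases hx : x ∈ K
      · rw [Set.indicator_of_mem hx]
        exact (hf1 hx).ge
      · rw [Set.indicator_of_notMem hx]
        exact (hf x).1
    rw [integral_indicator_const _ hK.measurableSet, smul_eq_mul, mul_one] at h1
    refine le_trans ?_ h1
    rw [measureReal_def]
    have h2 := ENNReal.toReal_mono (measure_ne_top μ K) hKμ.le
    rw [ENNReal.toReal_sub_of_le] at h2
    · rw [ENNReal.toReal_one, ENNReal.toReal_ofReal hδ.le] at h2
      exact h2
    · exact ENNReal.ofReal_le_one.2 hδ1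
    · exact ENNReal.one_ne_top
  have hmean : ∫ x : Tor, Helper66.ER.poly D c x = c 0 := by
    unfold Helper66.ER.poly
    rw [integral_finsetSum _ fun m _ =>
      (Helper17.TranslM.integrable_cont _ (fourier m).continuous).const_mul _]
    rw [Finset.sum_eq_single (0 : ℤ)]
    · rw [integral_const_mul]
      simp
    · intro m _ hm
      rw [integral_const_mul, Helper17.TranslM.integral_fourier_vol hm, mul_zero]
    · intro hn
      exact absurd (Finset.mem_Icc.2 ⟨by omega, by omega⟩) hn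
  have hc0 : ‖c 0‖ ≤ 2 * δ := by
    have h1 := hdiff volume
    rw [hmean] at h1
    have h2 : ‖((∫ x : Tor, f x : ℝ) : ℂ)‖ ≤ δ := by
      rw [Complex.norm_real, Real.norm_of_nonneg hf0']
      exact hfv
    calc ‖c 0‖ = ‖((∫ x : Tor, f x : ℝ) : ℂ) - (((∫ x : Tor, f x : ℝ) : ℂ) - c 0)‖ := by
          rw [sub_sub_cancel]
      _ ≤ _ := (norm_sub_le _ _).trans (by linarith)
  have hs : (0 : ℝ) < 1 + 3 * δ := by positivity
  have hs' : ((1 + 3 * δ : ℝ) : ℂ) ≠ 0 := by exact_mod_cast hs.ne'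
  have hpol : ∀ x, Helper66.ER.poly D (fun m => if m = 0 then 0 else c m / (1 + 3 * δ : ℝ)) x =
      (Helper66.ER.poly D c x - c 0) / (1 + 3 * δ : ℝ) := by
    intro x
    unfold Helper66.ER.poly
    have h0 : (0 : ℤ) ∈ Icc (-(D : ℤ)) D := Finset.mem_Icc.2 ⟨by omega, by omega⟩
    rw [← Finset.add_sum_erase _ _ h0, ← Finset.add_sum_erase (Icc (-(D : ℤ)) D)
      (fun m => c m * (fourier m x : ℂ)) h0]
    have h00 : (fun m : ℤ => if m = 0 then (0 : ℂ) else c m / (1 + 3 * δ : ℝ)) 0 = 0 := if_pos rfl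
    rw [h00, fourier_zero, mul_one, mul_one, zero_add, add_sub_cancel_left, Finset.sum_div]
    refine Finset.sum_congr rfl fun m hm => ?_
    have hm' : (fun m : ℤ => if m = 0 then (0 : ℂ) else c m / (1 + 3 * δ : ℝ)) m =
        c m / (1 + 3 * δ : ℝ) := if_neg (Finset.ne_of_mem_erase hm)
    rw [hm']
    ring
  refine ⟨D, hD, fun m => if m = 0 then 0 else c m / (1 + 3 * δ : ℝ), if_pos rfl, fun x => ?_, ?_⟩
  · rw [hpol, norm_div, Complex.norm_real, Real.norm_of_nonneg hs.le, div_le_one hs]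
    have h1 : ‖Helper66.ER.poly D c x‖ ≤ 1 + δ := by
      have h2 : ‖(f x : ℂ)‖ ≤ 1 := by
        rw [Complex.norm_real, Real.norm_of_nonneg (hf x).1]
        exact (hf x).2
      calc ‖Helper66.ER.poly D c x‖ = ‖(f x : ℂ) - ((f x : ℂ) - Helper66.ER.poly D c x)‖ := by
            rw [sub_sub_cancel]
        _ ≤ _ := (norm_sub_le _ _).trans (by linarith [hc' x])
    exact (norm_sub_le _ _).trans (by linarith)
  · simp_rw [hpol]
    rw [integral_div, integral_sub (hint μ) (integrable_const _), integral_const, probReal_univ,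
      one_smul, norm_div, Complex.norm_real, Real.norm_of_nonneg hs.le, le_div_iff₀ hs]
    have h1 := hdiff μ
    have h2 : 1 - δ ≤ ‖((∫ x, f x ∂μ : ℝ) : ℂ)‖ := by
      rw [Complex.norm_real]
      exact hfμ.trans (le_abs_self _)
    have h3 : ‖((∫ x, f x ∂μ : ℝ) : ℂ)‖ ≤ ‖((∫ x, f x ∂μ : ℝ) : ℂ) -
        ∫ x, Helper66.ER.poly D c x ∂μ‖ + (‖∫ x, Helper66.ER.poly D c x ∂μ - c 0‖ + ‖c 0‖) := by
      calc ‖((∫ x, f x ∂μ : ℝ) : ℂ)‖ = ‖(((∫ x, f x ∂μ : ℝ) : ℂ) -
            ∫ x, Helper66.ER.poly D c x ∂μ) + ((∫ x, Helper66.ER.poly D c x ∂μ - c 0) + c 0)‖ := by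
            congr 1
            ring
        _ ≤ _ := (norm_add_le _ _).trans (add_le_add le_rfl (norm_add_le _ _))
    nlinarith

end Helper35.DU
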