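import Mathlib

/-!
Dropping the last item of a list of equivalent statements
-/

set_option autoImplicit false

namespace Helper35.ADD

theorem tfae_init {a b c d e f : Prop} (h : List.TFAE [a, b, c, d, e, f]) :
    List.TFAE [a, b, c, d, e] := by
  intro x hx y hy
  refine h x ?_ y ?_
  · simp only [List.mem_cons, List.not_mem_nil, or_false] at hx ⊢
    tauto
  · simp only [List.mem_cons, List.not_mem_nil, or_false] at hy ⊢
    tauto

end Helper35.ADD
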