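import Pool.Agent.Helper35.ADD.Tr
import Pool.Agent.Helper28.ADD.Low
import Pool.Agent.Helper36.ADD.Low
import Pool.Agent.Helper35.ADD.Dual

/-!
ADD: uniform additivity of entropy over a set of traces
-/

set_option autoImplicit false

open MeasureTheory Filter Topology Finset Helper17.FU Helper17.FUGroup
open Helper91.TTT (GG)
open Helper35.AG (Tor idx ent conv Inv inv_of_trace eq_reg_iff exists_measure isCompact_TR)
open scoped ENNReal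

namespace Helper35.ADD

variable {s2 s3 t : Equiv.Perm ℚ}

/-- the error term of the effective inequality is at most linear with a small slope -/
theorem err_small (B δ : ℝ) (hδ : 0 < δ) : ∃ K0 : ℕ, 2 ≤ K0 ∧ ∀ K : ℕ, K0 ≤ K →
    B * (K / Real.log K) ≤ δ * K := by
  obtain ⟨N, hN⟩ := exists_nat_ge (Real.exp (B / δ))
  refine ⟨N + 2, by omega, fun K hK => ?_⟩
  have hK2 : (2 : ℝ) ≤ K := by exact_mod_cast (by omega : 2 ≤ K)
  have hl : 0 < Real.log K := Real.log_pos (by linarith)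
  have h1 : Real.exp (B / δ) ≤ K := by
    have : (N : ℝ) ≤ K := by exact_mod_cast (by omega : N ≤ K)
    linarith
  have h2 : B / δ ≤ Real.log K := by
    rw [← Real.log_exp (B / δ)]
    exact Real.log_le_log (Real.exp_pos _) h1
  rw [div_le_iff₀ hδ] at h2
  rw [← mul_div_assoc, div_le_iff₀ hl]
  nlinarith

/-- the entropy is at most linear with a small slope near a trace whose measure is singular -/
theorem local_small (h2 : ∀ x : ℚ, s2 x = 2 * x) (h3 : ∀ x : ℚ, s3 x = 3 * x)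
    (ht : ∀ x : ℚ, t x = x + 1) {τ : GG s2 s3 t} (hτ : (τ : Equiv.Perm ℚ) = t)
    {g : GG s2 s3 t → ℂ} {ρ : Measure Tor} [IsProbabilityMeasure ρ]
    (hρ : ∀ n : ℤ, ∫ x, (fourier n x : ℂ) ∂ρ = g (τ ^ n)) (hs : ρ ⟂ₘ volume) (δ : ℝ) (hδ : 0 < δ) :
    ∃ V ∈ 𝓝 g, ∃ C : ℝ, ∀ φ ∈ V, φ ∈ TR (GG s2 s3 t) → ∀ μ : Measure Tor,
      IsProbabilityMeasure μ → (∀ n : ℤ, ∫ x, (fourier n x : ℂ) ∂μ = φ (τ ^ n)) →
      ∀ K : ℕ, ent μ K ≤ δ * K + C := by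
  obtain ⟨D, hD, c, hc0, hc1, hc⟩ := Helper35.DU.dual hs (δ / 4) (by positivity)
  have hpoly : ∀ (φ : GG s2 s3 t → ℂ) (μ : Measure Tor) [IsProbabilityMeasure μ],
      (∀ n : ℤ, ∫ x, (fourier n x : ℂ) ∂μ = φ (τ ^ n)) →
      ∫ x, Helper66.ER.poly D c x ∂μ = ∑ m ∈ Icc (-(D : ℤ)) D, c m * φ (τ ^ m) := by
    intro φ μ _ hμ
    unfold Helper66.ER.poly
    rw [integral_finsetSum _ fun m _ => ?_]
    · refine Finset.sum_congr rfl fun m _ => ?_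
      rw [integral_const_mul, hμ]
    · exact (Helper17.TranslM.integrable_cont μ (fourier m).continuous).const_mul _
  have hcont : Continuous fun φ : GG s2 s3 t → ℂ =>
      ‖∑ m ∈ Icc (-(D : ℤ)) D, c m * φ (τ ^ m)‖ := by
    refine (continuous_finsetSum _ fun m _ => ?_).norm
    exact continuous_const.mul (continuous_apply _)
  refine ⟨{φ | 1 - δ / 2 < ‖∑ m ∈ Icc (-(D : ℤ)) D, c m * φ (τ ^ m)‖},
    (isOpen_lt continuous_const hcont).mem_nhds ?_, ?_⟩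
  · rw [hpoly g ρ hρ] at hc
    show 1 - δ / 2 < _
    linarith
  · obtain ⟨K0, hK0, hK⟩ := err_small (20 * (1 + Real.log D)) (δ / 2) (by positivity)
    have hl : Real.log 2 < 1 := by
      have := Real.log_two_lt_d9
      linarith
    have hl0 : 0 < Real.log 2 := Real.log_pos (by norm_num)
    refine ⟨K0 * Real.log 2, fun φ hφV hφ μ hμp hμ K => ?_⟩
    have hi := inv_of_trace h2 h3 ht hτ hφ hμ
    have hKr : (0 : ℝ) ≤ K := Nat.cast_nonneg K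
    rcases le_total K0 K with h | h
    · have h1 := Helper66.ER.partA hi D K hD (hK0.trans h) c hc0 hc1
      have h2' := hK K h
      have h3' : 1 - ‖∫ x, Helper66.ER.poly D c x ∂μ‖ ≤ δ / 2 := by
        have : 1 - δ / 2 < ‖∑ m ∈ Icc (-(D : ℤ)) D, c m * φ (τ ^ m)‖ := hφV
        rw [hpoly φ μ hμ]
        linarith
      have h4 : (1 - ‖∫ x, Helper66.ER.poly D c x ∂μ‖) * (K * Real.log 2) ≤ δ / 2 * K := by
        have h5 : (K : ℝ) * Real.log 2 ≤ K := by nlinarith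
        have h6 : 0 ≤ (K : ℝ) * Real.log 2 := by positivity
        calc (1 - ‖∫ x, Helper66.ER.poly D c x ∂μ‖) * (K * Real.log 2)
            ≤ δ / 2 * (K * Real.log 2) := mul_le_mul_of_nonneg_right h3' h6
          _ ≤ δ / 2 * K := mul_le_mul_of_nonneg_left h5 (by positivity)
      have h7 : 0 ≤ (K0 : ℝ) * Real.log 2 := by positivity
      linarith
    · have h1 := Helper66.ER.ent_le_trivial (μ := μ) K
      have h2' : (K : ℝ) * Real.log 2 ≤ K0 * Real.log 2 :=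
        mul_le_mul_of_nonneg_right (by exact_mod_cast h) hl0.le
      have h3' : 0 ≤ δ * K := by positivity
      linarith

/-- (i) implies (iii) -/
theorem small_of_sing (h2 : ∀ x : ℚ, s2 x = 2 * x) (h3 : ∀ x : ℚ, s3 x = 3 * x)
    (ht : ∀ x : ℚ, t x = x + 1) {τ : GG s2 s3 t} (hτ : (τ : Equiv.Perm ℚ) = t)
    {S : Set (GG s2 s3 t → ℂ)} (hS : S ⊆ TR (GG s2 s3 t))
    (H : ∀ ψ ∈ closure S, ∀ ρ : Measure Tor, IsProbabilityMeasure ρ →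
      (∀ n : ℤ, ∫ x, (fourier n x : ℂ) ∂ρ = ψ (τ ^ n)) → ρ ⟂ₘ volume) (δ : ℝ) (hδ : 0 < δ) :
    ∃ C : ℝ, ∀ φ ∈ S, ∀ μ : Measure Tor, IsProbabilityMeasure μ →
      (∀ n : ℤ, ∫ x, (fourier n x : ℂ) ∂μ = φ (τ ^ n)) → ∀ K : ℕ, ent μ K ≤ δ * K + C := by
  have hcl : closure S ⊆ TR (GG s2 s3 t) :=
    closure_minimal hS isCompact_TR.isClosed
  have hcomp : IsCompact (closure S) := isCompact_TR.of_isClosed_subset isClosed_closure hcl
  have key : ∃ C : ℝ, ∀ φ ∈ closure S, φ ∈ TR (GG s2 s3 t) → ∀ μ : Measure Tor,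
      IsProbabilityMeasure μ → (∀ n : ℤ, ∫ x, (fourier n x : ℂ) ∂μ = φ (τ ^ n)) →
      ∀ K : ℕ, ent μ K ≤ δ * K + C := by
    refine hcomp.induction_on (p := fun s => ∃ C : ℝ, ∀ φ ∈ s, φ ∈ TR (GG s2 s3 t) →
      ∀ μ : Measure Tor, IsProbabilityMeasure μ →
      (∀ n : ℤ, ∫ x, (fourier n x : ℂ) ∂μ = φ (τ ^ n)) →
      ∀ K : ℕ, ent μ K ≤ δ * K + C) ?_ ?_ ?_ ?_
    · exact ⟨0, fun φ hφ => absurd hφ (Set.notMem_empty φ)⟩
    · rintro s s' hss ⟨C, hC⟩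
      exact ⟨C, fun φ hφ => hC φ (hss hφ)⟩
    · rintro s s' ⟨C, hC⟩ ⟨C', hC'⟩
      refine ⟨max C C', fun φ hφ hφT μ hμp hμ K => ?_⟩
      rcases hφ with hφ | hφ
      · exact (hC φ hφ hφT μ hμp hμ K).trans (by linarith [le_max_left C C'])
      · exact (hC' φ hφ hφT μ hμp hμ K).trans (by linarith [le_max_right C C'])
    · intro g hg
      obtain ⟨ρ, hρp, hρ, -⟩ := exists_measure h2 h3 ht hτ (hcl hg)
      obtain ⟨V, hV, C, hC⟩ := local_small h2 h3 ht hτ hρ (H g hg ρ hρp hρ) δ hδ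
      exact ⟨V, mem_nhdsWithin_of_mem_nhds hV, C, hC⟩
  obtain ⟨C, hC⟩ := key
  exact ⟨C, fun φ hφ => hC φ (subset_closure hφ) (hS hφ)⟩

/-- (iii) implies (ii) -/
theorem add_of_small (h2 : ∀ x : ℚ, s2 x = 2 * x) (h3 : ∀ x : ℚ, s3 x = 3 * x)
    (ht : ∀ x : ℚ, t x = x + 1) {τ : GG s2 s3 t} (hτ : (τ : Equiv.Perm ℚ) = t)
    {S : Set (GG s2 s3 t → ℂ)} (hS : S ⊆ TR (GG s2 s3 t))
    (H : ∀ δ : ℝ, 0 < δ → ∃ C : ℝ, ∀ φ ∈ S, ∀ μ : Measure Tor, IsProbabilityMeasure μ →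
      (∀ n : ℤ, ∫ x, (fourier n x : ℂ) ∂μ = φ (τ ^ n)) → ∀ K : ℕ, ent μ K ≤ δ * K + C)
    (ε : ℝ) (hε : 0 < ε) :
    ∃ C : ℝ, ∀ φ ∈ S, ∀ μ : Measure Tor, IsProbabilityMeasure μ →
      (∀ n : ℤ, ∫ x, (fourier n x : ℂ) ∂μ = φ (τ ^ n)) →
      ∀ (ν : Measure Tor) (K : ℕ), IsProbabilityMeasure ν →
        (1 - ε) * (ent μ K + ent ν K) - C ≤ ent (conv μ ν) K := by
  obtain ⟨δ, hδ, A⟩ := additive ε hε
  obtain ⟨C, hC⟩ := H (δ / 2) (by positivity)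
  obtain ⟨J, hJ⟩ := exists_nat_ge (2 * C / δ)
  refine ⟨3 * ((J + 1 : ℕ) : ℝ), fun φ hφ μ hμp hμ ν K hν => ?_⟩
  refine A μ (inv_of_trace h2 h3 ht hτ (hS hφ) hμ).two (J + 1) (by omega) ?_ ν K
  refine (hC φ hφ μ hμp hμ (J + 1)).trans ?_
  rw [div_le_iff₀ hδ] at hJ
  push_cast
  nlinarith

/-- (ii) implies (iii) -/
theorem small_of_add {τ : GG s2 s3 t} {S : Set (GG s2 s3 t → ℂ)}
    (H : ∀ ε : ℝ, 0 < ε → ∃ C : ℝ, ∀ φ ∈ S, ∀ μ : Measure Tor, IsProbabilityMeasure μ →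
      (∀ n : ℤ, ∫ x, (fourier n x : ℂ) ∂μ = φ (τ ^ n)) →
      ∀ (ν : Measure Tor) (K : ℕ), IsProbabilityMeasure ν →
        (1 - ε) * (ent μ K + ent ν K) - C ≤ ent (conv μ ν) K) (δ : ℝ) (hδ : 0 < δ) :
    ∃ C : ℝ, ∀ φ ∈ S, ∀ μ : Measure Tor, IsProbabilityMeasure μ →
      (∀ n : ℤ, ∫ x, (fourier n x : ℂ) ∂μ = φ (τ ^ n)) → ∀ K : ℕ, ent μ K ≤ δ * K + C := by
  obtain ⟨e, he0, he1, he2⟩ : ∃ e : ℝ, 0 < e ∧ e ≤ 1 / 2 ∧ e ≤ δ / 2 :=
    ⟨min (1 / 2) (δ / 2), by positivity, min_le_left _ _, min_le_right _ _⟩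
  obtain ⟨C, hC⟩ := H e he0
  refine ⟨2 * |C|, fun φ hφ μ hμp hμ K => ?_⟩
  have h1 := hC φ hφ μ hμp hμ volume K inferInstance
  rw [Helper35.AG.conv_volume, Helper25.AG.ent_volume] at h1
  have hl : Real.log 2 < 1 := by
    have := Real.log_two_lt_d9
    linarith
  have hl0 : 0 < Real.log 2 := Real.log_pos (by norm_num)
  have hKr : (0 : ℝ) ≤ K := Nat.cast_nonneg K
  have h5 : (K : ℝ) * Real.log 2 ≤ K := by nlinarith
  have h6 : (1 - e) * ent μ K ≤ e * K + |C| := by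
    have h7 := le_abs_self C
    have h8 : e * (K * Real.log 2) ≤ e * K := mul_le_mul_of_nonneg_left h5 he0.le
    nlinarith
  have h9 : e * K ≤ δ / 2 * K := mul_le_mul_of_nonneg_right he2 hKr
  rcases le_or_gt (ent μ K) 0 with h | h
  · have h10 := abs_nonneg C
    have : 0 ≤ δ * K := by positivity
    linarith
  · nlinarith

/-- (iii) implies (i) -/
theorem sing_of_small (h2 : ∀ x : ℚ, s2 x = 2 * x) (h3 : ∀ x : ℚ, s3 x = 3 * x)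
    (ht : ∀ x : ℚ, t x = x + 1) {τ : GG s2 s3 t} (hτ : (τ : Equiv.Perm ℚ) = t)
    {S : Set (GG s2 s3 t → ℂ)} (hS : S ⊆ TR (GG s2 s3 t))
    (H : ∀ δ : ℝ, 0 < δ → ∃ C : ℝ, ∀ φ ∈ S, ∀ μ : Measure Tor, IsProbabilityMeasure μ →
      (∀ n : ℤ, ∫ x, (fourier n x : ℂ) ∂μ = φ (τ ^ n)) → ∀ K : ℕ, ent μ K ≤ δ * K + C)
    {ψ : GG s2 s3 t → ℂ} (hψ : ψ ∈ closure S) {ρ : Measure Tor} [IsProbabilityMeasure ρ]
    (hρ : ∀ n : ℤ, ∫ x, (fourier n x : ℂ) ∂ρ = ψ (τ ^ n)) : ρ ⟂ₘ volume := by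
  by_contra hns
  have hcl : closure S ⊆ TR (GG s2 s3 t) :=
    closure_minimal hS isCompact_TR.isClosed
  have hi := inv_of_trace h2 h3 ht hτ (hcl hψ) hρ
  obtain ⟨α, hα, hle⟩ := Helper36.ADD.dom_of_not_sing hi hns
  have hα1 : α ≤ 1 := by
    have h1 := hle Set.univ
    rw [Measure.smul_apply, measure_univ, measure_univ, smul_eq_mul, mul_one,
      ENNReal.ofReal_le_one] at h1
    exact h1
  have hl0 : 0 < Real.log 2 := Real.log_pos (by norm_num)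
  obtain ⟨C, hC⟩ := H (α / 4 * Real.log 2) (by positivity)
  obtain ⟨K, hK⟩ := exists_nat_gt (C / (α / 4 * Real.log 2))
  rw [div_lt_iff₀ (by positivity)] at hK
  obtain ⟨φ, hφ, μ, hμp, hμ, hcell⟩ := Helper28.ADD.near h2 h3 ht hτ hS hψ hρ hα hle K
  have h1 := hC φ hφ μ hμp hμ K
  have h2' := Helper36.ADD.ent_lower (μ := μ) (a := α / 2) (by positivity) (by linarith) K hcell
  nlinarith

/-- **Uniform additivity.** -/
theorem tfae_uniform (h2 : ∀ x : ℚ, s2 x = 2 * x) (h3 : ∀ x : ℚ, s3 x = 3 * x)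
    (ht : ∀ x : ℚ, t x = x + 1) {τ : GG s2 s3 t} (hτ : (τ : Equiv.Perm ℚ) = t)
    {S : Set (GG s2 s3 t → ℂ)} (hS : S ⊆ TR (GG s2 s3 t)) :
    List.TFAE [
      ∀ ψ ∈ closure S, ∀ ρ : Measure Tor, IsProbabilityMeasure ρ →
        (∀ n : ℤ, ∫ x, (fourier n x : ℂ) ∂ρ = ψ (τ ^ n)) → ρ ⟂ₘ volume,
      ∀ ε : ℝ, 0 < ε → ∃ C : ℝ, ∀ φ ∈ S, ∀ μ : Measure Tor, IsProbabilityMeasure μ →
        (∀ n : ℤ, ∫ x, (fourier n x : ℂ) ∂μ = φ (τ ^ n)) → ∀ K : ℕ, ent μ K ≤ ε * K + C,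
      ∀ ε : ℝ, 0 < ε → ∃ C : ℝ, ∀ φ ∈ S, ∀ μ : Measure Tor, IsProbabilityMeasure μ →
        (∀ n : ℤ, ∫ x, (fourier n x : ℂ) ∂μ = φ (τ ^ n)) →
        ∀ (ν : Measure Tor) (K : ℕ), IsProbabilityMeasure ν →
          (1 - ε) * (ent μ K + ent ν K) - C ≤ ent (conv μ ν) K] := by
  tfae_have 1 → 2 := fun H ε hε => small_of_sing h2 h3 ht hτ hS H ε hε
  tfae_have 2 → 3 := fun H ε hε => add_of_small h2 h3 ht hτ hS H ε hε
  tfae_have 3 → 2 := fun H ε hε => small_of_add H ε hε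
  tfae_have 2 → 1 := fun H ψ hψ ρ hρp hρ => sing_of_small h2 h3 ht hτ hS H hψ hρ
  tfae_finish

/-- the measure of an extreme trace is singular iff the trace is not the regular one -/
theorem sing_iff (h2 : ∀ x : ℚ, s2 x = 2 * x) (h3 : ∀ x : ℚ, s3 x = 3 * x)
    (ht : ∀ x : ℚ, t x = x + 1) {τ : GG s2 s3 t} (hτ : (τ : Equiv.Perm ℚ) = t)
    {φ : GG s2 s3 t → ℂ} (hφ : φ ∈ Set.extremePoints ℝ (TR (GG s2 s3 t)))
    {μ : Measure Tor} [IsProbabilityMeasure μ]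
    (hμ : ∀ n : ℤ, ∫ x, (fourier n x : ℂ) ∂μ = φ (τ ^ n)) :
    φ ≠ Set.indicator ({1} : Set (GG s2 s3 t)) (fun _ => (1 : ℂ)) ↔ μ ⟂ₘ volume := by
  constructor
  · intro hne
    by_contra hns
    obtain ⟨α, hα, hle⟩ := Helper36.ADD.dom_of_not_sing (inv_of_trace h2 h3 ht hτ hφ.1 hμ) hns
    exact Helper35.AG.not_le_of_extreme h2 h3 ht hτ hφ hne hμ hα hle
  · intro hs h0
    rw [(eq_reg_iff h2 h3 ht hτ hφ.1 hμ).1 h0, Measure.MutuallySingular.self_iff] at hs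
    exact NeZero.ne (volume : Measure Tor) hs

end Helper35.ADD
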