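import Mathlib
import Pool.Agent.Helper35.AG.Arcs
import Pool.Agent.Helper35.AG.PartF
import Pool.Agent.Helper35.ADD.Uni
import Pool.Agent.Helper35.ADD.Sub
import Pool.Agent.Helper35.IP.Mono

/-!
# Entropy of convolutions with the measure of an extreme trace

`G` is the group generated by `x ↦ 2x`, `x ↦ 3x`, `x ↦ x + 1`, `τ` is the translation by one.
-/

set_option autoImplicit false
open scoped ComplexOrder InnerProductSpace Topology
open Filter MeasureTheory Finset Helper17.FU Helper17.FUGroup Helper91.TTT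

namespace Helper35.ADD.One

/-- normalised positive definite class functions -/
def traces (G : Subgroup (Equiv.Perm ℚ)) : Set (G → ℂ) :=
  {ψ : G → ℂ | ψ 1 = 1 ∧ (∀ g h : G, ψ (h * g * h⁻¹) = ψ g) ∧
    ∀ (s : Finset G) (c : G → ℂ), 0 ≤ ∑ i ∈ s, ∑ j ∈ s, star (c j) * c i * ψ (j⁻¹ * i)}

/-- the regular trace -/
noncomputable def reg (G : Subgroup (Equiv.Perm ℚ)) : G → ℂ :=
  Set.indicator ({1} : Set G) (fun _ => (1 : ℂ))

/-- `μ` is the probability measure on the circle with Fourier coefficients `φ (τ ^ m)` -/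
def IsMeasureOf {G : Subgroup (Equiv.Perm ℚ)} (τ : G) (φ : G → ℂ)
    (μ : Measure (AddCircle (1 : ℝ))) : Prop :=
  IsProbabilityMeasure μ ∧ ∀ m : ℤ, ∫ x, (fourier m x : ℂ) ∂μ = φ (τ ^ m)

/-- the arc `[i / 2 ^ K, (i + 1) / 2 ^ K)` of the circle -/
def arc (K i : ℕ) : Set (AddCircle (1 : ℝ)) :=
  (fun t : ℝ => (t : AddCircle (1 : ℝ))) '' Set.Ico ((i : ℝ) / 2 ^ K) ((i + 1) / 2 ^ K)

/-- the Shannon entropy of the partition of the circle into the `2 ^ K` dyadic arcs of length
`2 ^ (-K)` -/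
noncomputable def shannon (μ : Measure (AddCircle (1 : ℝ))) (K : ℕ) : ℝ :=
  ∑ i ∈ range (2 ^ K), Real.negMulLog (μ.real (arc K i))

/-- **Entropy of convolutions.**  For an extreme trace `f` with measure `μ` the following are
equivalent: `f` is not the regular trace; the entropy of the convolution of `μ` with an arbitrary
probability measure is asymptotically the sum of the two entropies, uniformly over all probability
measures and all scales; convolution of `μ` with any probability measure which is not purely atomic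
raises the entropy by an amount tending to infinity; all irrational translates of `μ` are singular
to all probability measures invariant under multiplication by an integer at least two. -/
theorem result :
  ∀ (s2 s3 t : Equiv.Perm ℚ), (∀ x : ℚ, s2 x = 2 * x) → (∀ x : ℚ, s3 x = 3 * x) →
  (∀ x : ℚ, t x = x + 1) →
  ∀ (G : Subgroup (Equiv.Perm ℚ)), G = Subgroup.closure {s2, s3, t} →
  ∀ τ : G, (τ : Equiv.Perm ℚ) = t →
  ∀ f ∈ Set.extremePoints ℝ (traces G), ∃ μ : Measure (AddCircle (1 : ℝ)), IsMeasureOf τ f μ ∧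
    List.TFAE [
      f ≠ reg G,
      ∀ ε : ℝ, 0 < ε → ∃ C : ℝ, ∀ ν K, IsProbabilityMeasure ν →
        (1 - ε) * (shannon μ K + shannon ν K) - C ≤ shannon (μ.conv ν) K,
      ∀ ν, IsProbabilityMeasure ν → (∀ A, A.Countable → ν Aᶜ ≠ 0) →
        Tendsto (fun K => shannon (μ.conv ν) K - shannon μ K) atTop atTop,
      ∀ u : AddCircle (1 : ℝ), addOrderOf u = 0 → ∀ (q : ℕ) (ρ : Measure (AddCircle (1 : ℝ))),
        2 ≤ q → IsProbabilityMeasure ρ →
        MeasurePreserving (fun x : AddCircle (1 : ℝ) => q • x) ρ ρ →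
        (μ.map fun x => x + u) ⟂ₘ ρ] := by
  intro s2 s3 t h2 h3 ht G hG τ hτ
  subst hG
  intro f hf
  have hf' : f ∈ Set.extremePoints ℝ (TR (GG s2 s3 t)) := hf
  obtain ⟨μ, hμp, hμ, -⟩ := Helper35.AG.exists_measure h2 h3 ht hτ hf'.1
  refine ⟨μ, ⟨hμp, hμ⟩, ?_⟩
  have hsh : ∀ (ρ : Measure (AddCircle (1 : ℝ))) (K : ℕ), shannon ρ K = Helper35.AG.ent ρ K :=
    fun ρ K => Helper35.AG.sum_arc ρ K Real.negMulLog
  have hcv : ∀ (ν : Measure (AddCircle (1 : ℝ))) (K : ℕ),
      shannon (μ.conv ν) K = Helper35.AG.ent (Helper35.AG.conv μ ν) K := fun ν K => hsh _ K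
  have h := Helper35.ADD.tfae_init (Helper35.AG.tfae_ext h2 h3 ht hτ hf' hμ)
  have hu := Helper35.ADD.tfae_uniform h2 h3 ht hτ (S := {f})
    (Set.singleton_subset_iff.2 hf'.1)
  have huniq : ∀ μ' : Measure (AddCircle (1 : ℝ)), IsProbabilityMeasure μ' →
      (∀ n : ℤ, ∫ x, (fourier n x : ℂ) ∂μ' = f (τ ^ n)) → μ' = μ := by
    intro μ' hp' hμ'
    exact Helper35.IP.eq_of_ft fun n => by rw [hμ' n, hμ n]
  have hsing : f ≠ reg (GG s2 s3 t) ↔ μ ⟂ₘ volume := Helper35.ADD.sing_iff h2 h3 ht hτ hf' hμ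
  have h12 : f ≠ reg (GG s2 s3 t) ↔ ∀ ε : ℝ, 0 < ε → ∃ C : ℝ, ∀ ν K, IsProbabilityMeasure ν →
        (1 - ε) * (shannon μ K + shannon ν K) - C ≤ shannon (μ.conv ν) K := by
    have e1 : (∀ ψ ∈ closure ({f} : Set (GG s2 s3 t → ℂ)), ∀ ρ : Measure (AddCircle (1 : ℝ)),
        IsProbabilityMeasure ρ → (∀ n : ℤ, ∫ x, (fourier n x : ℂ) ∂ρ = ψ (τ ^ n)) →
        ρ ⟂ₘ volume) ↔ f ≠ reg (GG s2 s3 t) := by
      rw [closure_singleton, hsing]
      constructor
      · intro H
        exact H f rfl μ hμp hμ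
      · intro H ψ hψ ρ hρp hρ
        rw [Set.mem_singleton_iff] at hψ
        subst hψ
        rw [huniq ρ hρp hρ]
        exact H
    rw [← e1]
    refine (hu.out 0 2).trans ?_
    refine forall_congr' fun ε => forall_congr' fun _ => exists_congr fun C => ?_
    simp only [hsh]
    constructor
    · intro H ν K hν
      exact H f rfl μ hμp hμ ν K hν
    · intro H φ hφ μ' hp' hμ' ν K hν
      rw [Set.mem_singleton_iff] at hφ
      subst hφ
      rw [huniq μ' hp' hμ']
      exact H ν K hν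
  have h13 : f ≠ reg (GG s2 s3 t) ↔ ∀ ν, IsProbabilityMeasure ν → (∀ A, A.Countable → ν Aᶜ ≠ 0) →
        Tendsto (fun K => shannon (μ.conv ν) K - shannon μ K) atTop atTop := by
    have h01 := not_congr (h.out 0 1)
    refine Iff.trans h01 ?_
    constructor
    · intro H ν hν hA
      rw [tendsto_atTop]
      intro C
      by_contra hC
      refine H ⟨ν, hν, hA, C, ?_⟩
      refine (Filter.not_eventually.1 hC).mono fun K hK => ?_
      rw [hcv, hsh] at hK
      exact (not_le.1 hK).le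
    · rintro H ⟨ν, hν, hA, C, hC⟩
      have hT := (H ν hν hA).eventually (eventually_gt_atTop C)
      obtain ⟨K, hK1, hK2⟩ := (hC.and_eventually hT).exists
      rw [hcv, hsh] at hK2
      exact absurd hK1 (not_le.2 hK2)
  have h14 : f ≠ reg (GG s2 s3 t) ↔ ∀ u : AddCircle (1 : ℝ), addOrderOf u = 0 →
        ∀ (q : ℕ) (ρ : Measure (AddCircle (1 : ℝ))),
        2 ≤ q → IsProbabilityMeasure ρ →
        MeasurePreserving (fun x : AddCircle (1 : ℝ) => q • x) ρ ρ →
        (μ.map fun x => x + u) ⟂ₘ ρ := by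
    have h04 := not_congr (h.out 0 4)
    refine Iff.trans h04 ?_
    constructor
    · intro H u hu q ρ hq hρ hi
      by_contra hn
      exact H ⟨u, hu, q, ρ, hq, hρ, hi, hn⟩
    · rintro H ⟨u, hu, q, ρ, hq, hρ, hi, hn⟩
      exact hn (H u hu q ρ hq hρ hi)
  tfae_have 1 ↔ 2 := h12
  tfae_have 1 ↔ 3 := h13
  tfae_have 1 ↔ 4 := h14
  tfae_finish

end Helper35.ADD.One
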