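import Pool.Agent.Helper35.ADD.Add
import Pool.Agent.Helper25.CG.Ext
import Pool.Agent.Helper40.IP.Zero
import Pool.Agent.Helper25.AG.Near
import Pool.Agent.Helper35.AG.PartE

/-!
ADD: additivity of entropy characterises the extreme traces other than the regular one
-/

set_option autoImplicit false

open MeasureTheory Filter Topology Finset Helper17.FU Helper17.FUGroup
open Helper91.TTT (GG)
open Helper35.AG (Tor idx ent conv inv_of_trace eq_reg_iff)
open scoped ENNReal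

namespace Helper35.ADD

variable {s2 s3 t : Equiv.Perm ℚ}

/-- the measure of an extreme trace other than the regular one has entropy zero -/
theorem zero_ent (h2 : ∀ x : ℚ, s2 x = 2 * x) (h3 : ∀ x : ℚ, s3 x = 3 * x)
    (ht : ∀ x : ℚ, t x = x + 1) {τ : GG s2 s3 t} (hτ : (τ : Equiv.Perm ℚ) = t)
    {φ : GG s2 s3 t → ℂ} (hφ : φ ∈ Set.extremePoints ℝ (TR (GG s2 s3 t)))
    {μ : Measure Tor} [IsProbabilityMeasure μ]
    (hμ : ∀ n : ℤ, ∫ x, (fourier n x : ℂ) ∂μ = φ (τ ^ n))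
    (hne : φ ≠ Set.indicator ({1} : Set (GG s2 s3 t)) (fun _ => (1 : ℂ))) :
    Tendsto (fun K : ℕ => ent μ K / K) atTop (𝓝 0) := by
  refine Pool.Agent.Helper40.IP.zero_ent (inv_of_trace h2 h3 ht hτ hφ.1 hμ) ?_ ?_
  · intro μ' c hp hi hc hle
    exact Helper25.CG.ext_of_extreme h2 h3 ht hτ hφ hμ μ' c hp hi hc hle
  · intro h
    exact hne ((eq_reg_iff h2 h3 ht hτ hφ.1 hμ).2 h)

/-- additivity of entropy -/
theorem additive_iff (h2 : ∀ x : ℚ, s2 x = 2 * x) (h3 : ∀ x : ℚ, s3 x = 3 * x)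
    (ht : ∀ x : ℚ, t x = x + 1) {τ : GG s2 s3 t} (hτ : (τ : Equiv.Perm ℚ) = t)
    {φ : GG s2 s3 t → ℂ} (hφ : φ ∈ Set.extremePoints ℝ (TR (GG s2 s3 t)))
    {μ : Measure Tor} [IsProbabilityMeasure μ]
    (hμ : ∀ n : ℤ, ∫ x, (fourier n x : ℂ) ∂μ = φ (τ ^ n)) :
    φ ≠ Set.indicator ({1} : Set (GG s2 s3 t)) (fun _ => (1 : ℂ)) ↔
      ∀ ε : ℝ, 0 < ε → ∃ C : ℝ, ∀ (ν : Measure Tor) (K : ℕ), IsProbabilityMeasure ν →
        (1 - ε) * (ent μ K + ent ν K) - C ≤ ent (conv μ ν) K := by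
  constructor
  · intro hne ε hε
    obtain ⟨δ, hδ, H⟩ := additive ε hε
    have hz := zero_ent h2 h3 ht hτ hφ hμ hne
    obtain ⟨J, hJ1, hJ2⟩ := ((hz.eventually (eventually_lt_nhds hδ)).and
      (eventually_ge_atTop 1)).exists
    have hJr : (0 : ℝ) < J := by exact_mod_cast hJ2
    refine ⟨3 * J, fun ν K hν => ?_⟩
    refine H μ (inv_of_trace h2 h3 ht hτ hφ.1 hμ).two J hJ2 ?_ ν K
    rw [div_lt_iff₀ hJr] at hJ1
    exact hJ1.le
  · intro H h0
    have hvol : μ = volume := (eq_reg_iff h2 h3 ht hτ hφ.1 hμ).1 h0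
    obtain ⟨C, hC⟩ := H (1 / 4) (by norm_num)
    have h1 : ∀ K : ℕ, (K : ℝ) * Real.log 2 ≤ 2 * C := by
      intro K
      have h2' := hC volume K inferInstance
      rw [hvol, Helper35.AG.conv_volume, Helper25.AG.ent_volume] at h2'
      linarith
    have hl : 0 < Real.log 2 := Real.log_pos (by norm_num)
    obtain ⟨K, hK⟩ := exists_nat_gt (2 * C / Real.log 2)
    rw [div_lt_iff₀ hl] at hK
    exact absurd (h1 K) (not_le.2 hK)

end Helper35.ADD
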